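import Pool.Agent.H37.CNJ.Stmts
import Pool.Agent.H37.CNP.Stmts
import Pool.Agent.H37.CNQ.Stmts
import Pool.Agent.H37.CNV.Stmts
import Pool.Agent.H37.CNE.Stmts
import Pool.Agent.H37.CSZ.Stmts
import Pool.Agent.H37.CNW.Stmts

/-!
# Row RKP of the board cnj
-/

set_option autoImplicit false

namespace Pool.CND

theorem rkp_between (hNQD : S_NQD) (hCNG : S_CNG) {p : ℕ} {k G : Type} [Field k] [IsAlgClosed k]
    [Group G] [Finite G] (hp : p.Prime) (hk : CharP k p) (Z C : Subgroup G) [Z.Normal] [C.Normal]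
    (hC : C ≤ Z) (hZ : ¬ p ∣ Nat.card Z) (v : ℕ) (h1 : NG k G = v) (h2 : NG k (G ⧸ Z) = v) :
    NG k (G ⧸ C) = v := by
  have hCc : ¬ p ∣ Nat.card C := fun h => hZ (h.trans (Subgroup.card_dvd_of_le hC))
  have a1 : v ∣ NG k (G ⧸ C) := by
    have := hNQD p k G C hp hk hCc
    rwa [h1] at this
  have hM : ¬ p ∣ Nat.card (Z.map (QuotientGroup.mk' C)) := fun h =>
    hZ (h.trans (Subgroup.card_map_dvd Z (QuotientGroup.mk' C)))
  have a2 : NG k (G ⧸ C) ∣ v := by
    have := hNQD p k (G ⧸ C) (Z.map (QuotientGroup.mk' C)) hp hk hM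
    rwa [hCNG k _ (G ⧸ Z) ⟨QuotientGroup.quotientQuotientEquivQuotient C Z hC⟩, h2] at this
  exact Nat.dvd_antisymm a2 a1

theorem rkp_charF (p : ℕ) (F : Type) [Field F] (f q : ℕ)
    (hp : p.Prime) (hf : 1 ≤ f) (hq : q = p ^ f) (hF : Nat.card F = q) :
    CharP F p := by
  have := Fact.mk hp
  have : Finite F := Nat.finite_of_card_ne_zero (by rw [hF, hq]; exact pow_ne_zero _ hp.ne_zero)
  have : Fintype F := Fintype.ofFinite F
  obtain ⟨r, hr⟩ := CharP.exists F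
  obtain ⟨n, hr1, hr2⟩ := FiniteField.card F r
  rw [Nat.card_eq_fintype_card, hr2, hq] at hF
  have : p = r := by
    have h1 : p ∣ r ^ (n : ℕ) := hF ▸ dvd_pow_self p (by omega)
    exact (Nat.prime_dvd_prime_iff_eq hp hr1).1 (hp.dvd_of_dvd_pow h1)
  rw [this]; exact hr

theorem rkp_sl (hPSR : S_PSR) (hSLR : S_SLR) (hNQD : S_NQD) (hCNG : S_CNG)
    (p : ℕ) (k F : Type) [Field k] [IsAlgClosed k] [Field F] (f q : ℕ)
    (hp : p.Prime) (hk : CharP k p) (hf : 1 ≤ f) (hq : q = p ^ f) (hF : Nat.card F = q)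
    (C : Subgroup (Matrix.SpecialLinearGroup (Fin 2) F)) [C.Normal]
    (hC : C ≤ Subgroup.center (Matrix.SpecialLinearGroup (Fin 2) F)) :
    NG k (Matrix.SpecialLinearGroup (Fin 2) F ⧸ C) = (q - 1) / Nat.gcd 2 (q - 1) := by
  have := Fact.mk hp
  have : Finite F := Nat.finite_of_card_ne_zero (by rw [hF, hq]; exact pow_ne_zero _ hp.ne_zero)
  have : CharP F p := rkp_charF p F f q hp hf hq hF
  have hZ : ¬ p ∣ Nat.card (Subgroup.center (Matrix.SpecialLinearGroup (Fin 2) F)) := by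
    intro h
    obtain ⟨g, hg⟩ := exists_prime_orderOf_dvd_card' p h
    set u := Matrix.SpecialLinearGroup.center_equiv_rootsOfUnity g with hu
    have h1 : u ^ p = 1 := by
      rw [hu, ← map_pow, ← hg, pow_orderOf_eq_one, map_one]
    have h2 : ((u : Fˣ) : F) ^ p = 1 := by
      have := congrArg (fun x => ((x : Fˣ) : F)) (congrArg Subtype.val h1)
      simpa using this
    have h3 : (((u : Fˣ) : F) - 1) ^ p = 0 := by
      rw [sub_pow_char, h2, one_pow, sub_self]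
    have h4 : ((u : Fˣ) : F) = 1 := sub_eq_zero.1 (pow_eq_zero_iff hp.ne_zero |>.1 h3)
    have h5 : u = 1 := by
      apply Subtype.ext
      apply Units.ext
      simpa using h4
    have h6 : g = 1 := by
      apply Matrix.SpecialLinearGroup.center_equiv_rootsOfUnity.injective
      rw [← hu, h5, map_one]
    rw [h6, orderOf_one] at hg
    exact hp.one_lt.ne hg
  exact rkp_between hNQD hCNG hp hk _ C hC hZ _ (hSLR p k F f q hp hk hf hq hF)
    (hPSR p k F f q hp hk hf hq hF)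

theorem rkp_su (hVSU : S_VSU) (hVPU : S_VPU) (hNQD : S_NQD) (hVZC : S_VZC) (hCNG : S_CNG)
    (p : ℕ) (k F : Type) [Field k] [IsAlgClosed k] [Field F] (f q : ℕ)
    (σ : F →+* F) (hp : p.Prime) (hk : CharP k p) (hf : 1 ≤ f) (hq : q = p ^ f)
    (hF : Nat.card F = q ^ 2) (hσ : ∀ a, σ a = a ^ q) (C : Subgroup (SU3 σ)) [C.Normal]
    (hC : C ≤ Subgroup.center (SU3 σ)) : NG k (SU3 σ ⧸ C) = q * (q - 1) := by
  obtain ⟨h1, h2⟩ := hVZC p F f q σ hp hf hq hF hσ
  have := h1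
  exact rkp_between hNQD hCNG hp hk _ C hC h2 _ (hVSU p k F f q σ hp hk hf hq hF hσ)
    (hVPU p k F f q σ hp hk hf hq hF hσ)

/-- covers are transported along isomorphisms -/
theorem rkp_hc {k G G' : Type} [Field k] [Group G] [Group G'] (e : G ≃* G')
    (h : HasCover k G') : HasCover k G := by
  obtain ⟨L, i1, i2, ρ, t, hcov⟩ := h
  refine ⟨L, i1, i2, ρ.comp e.toMonoidHom, t, ?_⟩
  refine ⟨fun x y hxy => e.injective (hcov.inj hxy), hcov.trans, fun x => ?_, ?_⟩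
  · rw [← hcov.fixed x]
    constructor
    · intro h g
      have := h (e.symm g)
      simpa using this
    · intro h g
      exact h (e g)
  · intro P hP g hg
    have := hcov.unram P hP (e g) hg
    exact (map_eq_one_iff e e.injective).1 this

theorem rkp_thm (hPRF : S_PRF) (hHC1 : S_HC1) (hHC2 : S_HC2) (hHC3 : S_HC3) (hPSR : S_PSR)
    (hSLR : S_SLR) (hVSU : S_VSU) (hVPU : S_VPU) (hNQD : S_NQD) (hVZC : S_VZC) (hZZZ : S_ZZZ)
    (hCNG : S_CNG) : S_RKP := by
  intro p n k _ _ hchar G _ r hp hr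
  have key : ∀ i, Finite (G i) ∧ HasCover k (G i) ∧ NG k (G i) = r i := by
    intro i
    rcases hr i with ⟨F, _, f, q, C, _, hf, hq, hF, hC, ⟨e⟩, hri⟩ |
      ⟨F, _, f, q, σ, C, _, hf, hq, hF, hσ, hC, ⟨e⟩, hri⟩ |
      ⟨hp2, F, _, hcF, m, q, φ, hm, hq, hF, hφ, ⟨e⟩, hri⟩
    · have hfin : Finite F :=
        Nat.finite_of_card_ne_zero (by rw [hF, hq]; exact pow_ne_zero _ hp.ne_zero)
      refine ⟨Finite.of_equiv _ e.symm.toEquiv, rkp_hc e (hHC1 p k F f q hp hchar hf hq hF C), ?_⟩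
      rw [hCNG k _ _ ⟨e⟩, rkp_sl hPSR hSLR hNQD hCNG p k F f q hp hchar hf hq hF C hC, hri]
    · have hfin : Finite (SU3 σ) := (hVZC p F f q σ hp hf hq hF hσ).1
      refine ⟨Finite.of_equiv _ e.symm.toEquiv,
        rkp_hc e (hHC2 p k F f q σ hp hchar hf hq hF hσ C), ?_⟩
      rw [hCNG k _ _ ⟨e⟩, rkp_su hVSU hVPU hNQD hVZC hCNG p k F f q σ hp hchar hf hq hF hσ C hC,
        hri]
    · subst hp2
      have hfin : Finite F := Nat.finite_of_card_ne_zero (by rw [hF, hq]; positivity)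
      have hfin' : Finite (Sz φ) := inferInstance
      refine ⟨Finite.of_equiv _ e.symm.toEquiv,
        rkp_hc e (hHC3 m q k F φ hchar hm hq hF hφ), ?_⟩
      rw [hCNG k _ _ ⟨e⟩, hZZZ m q _ k F φ hchar hm rfl hq hF hφ, hri]
  have hfin : ∀ i, Finite (G i) := fun i => (key i).1
  rw [hPRF p n k G hp fun i => (key i).2.1]
  congr 1
  funext i
  exact (key i).2.2

end Pool.CND
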